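import Pool.Agent.H69.LQ.Lib

/-! GR: the gradient in polar coordinates. -/

set_option autoImplicit false

open MeasureTheory Metric Set
open scoped ENNReal
open Pool.Agent.H85.LK (E adm lam Ann)
open Pool.Agent.H69.LQ

namespace Pool.Agent.H37.LQ

theorem GR_norm {N : ℕ} (D : E N →L[ℝ] ℝ) :
    ‖D‖ ^ 2 = ∑ i, D (EuclideanSpace.single i 1) ^ 2 := by
  have h1 : ‖(InnerProductSpace.toDual ℝ (E N)).symm D‖ = ‖D‖ :=
    LinearIsometryEquiv.norm_map _ _
  rw [← h1, EuclideanSpace.norm_sq_eq]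
  refine Finset.sum_congr rfl fun i _ => ?_
  have h2 : inner ℝ ((InnerProductSpace.toDual ℝ (E N)).symm D)
      (EuclideanSpace.single i (1 : ℝ)) = D (EuclideanSpace.single i 1) :=
    InnerProductSpace.toDual_symm_apply
  have h3 : inner ℝ ((InnerProductSpace.toDual ℝ (E N)).symm D)
      (EuclideanSpace.single i (1 : ℝ)) = ((InnerProductSpace.toDual ℝ (E N)).symm D) i := by
    rw [EuclideanSpace.inner_single_right]
    simp
  rw [← h2, h3, Real.norm_eq_abs, sq_abs]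

theorem GR_apply {N : ℕ} (D : E N →L[ℝ] ℝ) (x : E N) :
    D x = ∑ i, x i * D (EuclideanSpace.single i 1) := by
  have h1 : x = ∑ i, x i • (EuclideanSpace.single i (1 : ℝ) : E N) := by
    ext k
    simp [Finset.sum_apply, Pi.single_apply]
  conv_lhs => rw [h1]
  rw [map_sum]
  refine Finset.sum_congr rfl fun i _ => ?_
  rw [map_smul, smul_eq_mul]

theorem GR_lagrange {N : ℕ} (x g : Fin N → ℝ) :
    (∑ i, x i ^ 2) * (∑ i, g i ^ 2) =
      (∑ i, x i * g i) ^ 2 + 1 / 2 * ∑ i, ∑ j, (x i * g j - x j * g i) ^ 2 := by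
  have h1 : ∑ i, ∑ j, (x i * g j - x j * g i) ^ 2 =
      ∑ i, ∑ j, x i ^ 2 * g j ^ 2 + ∑ i, ∑ j, g i ^ 2 * x j ^ 2 -
        2 * ∑ i, ∑ j, (x i * g i) * (x j * g j) := by
    rw [Finset.mul_sum, ← Finset.sum_add_distrib, ← Finset.sum_sub_distrib]
    refine Finset.sum_congr rfl fun i _ => ?_
    rw [Finset.mul_sum, ← Finset.sum_add_distrib, ← Finset.sum_sub_distrib]
    refine Finset.sum_congr rfl fun j _ => ?_
    ring
  rw [h1, ← Finset.sum_mul_sum, ← Finset.sum_mul_sum, ← Finset.sum_mul_sum]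
  ring

theorem GR_one {N : ℕ} (f : E N → ℝ) (x : E N) :
    ‖x‖ ^ 2 * ‖fderiv ℝ f x‖ ^ 2 = fderiv ℝ f x x ^ 2 + Gs f x := by
  rw [GR_norm (fderiv ℝ f x), GR_apply (fderiv ℝ f x) x, EuclideanSpace.norm_sq_eq]
  unfold Gs LL
  rw [← GR_lagrange (fun i => x i) fun i => fderiv ℝ f x (EuclideanSpace.single i 1)]
  congr 1
  refine Finset.sum_congr rfl fun i _ => ?_
  rw [Real.norm_eq_abs, sq_abs]

theorem GR_scale {N : ℕ} (f : E N → ℝ) (hf : Differentiable ℝ f) (r : ℝ) (x : E N) :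
    Gs (fun x => f (r • x)) x = Gs f (r • x) := by
  have h1 : fderiv ℝ (fun x => f (r • x)) x =
      (fderiv ℝ f (r • x)).comp (r • ContinuousLinearMap.id ℝ (E N)) := by
    have h2 : HasFDerivAt (fun x : E N => r • x) (r • ContinuousLinearMap.id ℝ (E N)) x :=
      (hasFDerivAt_id x).const_smul r
    have h3 := (hf (r • x)).hasFDerivAt.comp x h2
    exact h3.fderiv
  unfold Gs
  congr 1
  refine Finset.sum_congr rfl fun i _ => Finset.sum_congr rfl fun j _ => ?_
  congr 1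
  unfold LL
  rw [h1]
  simp only [ContinuousLinearMap.comp_apply, _root_.smul_apply,
    ContinuousLinearMap.id_apply, map_smul, smul_eq_mul, PiLp.smul_apply]
  ring

theorem pf_GR : T_GR := by
  intro N f hf
  refine ⟨fun x => GR_one f x, fun r θ hr => ?_⟩
  have h1 := GR_one f (r • (θ : E N))
  rw [norm_smul_sp, sq_abs, map_smul, smul_eq_mul, mul_pow] at h1
  rw [GR_scale f hf r θ]
  unfold dr
  have h2 : r ^ 2 ≠ 0 := pow_ne_zero 2 hr
  field_simp
  linarith

end Pool.Agent.H37.LQ
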