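import Pool.Agent.H69.LQ.Lib

/-! MP: polar coordinates, Bochner version. -/

set_option autoImplicit false

open MeasureTheory Metric Set
open scoped ENNReal
open Pool.Agent.H85.LK (E adm lam Ann)
open Pool.Agent.H69.LQ

namespace Pool.Agent.H37.LQ

theorem MP_total {N : ℕ} :
    (volume : Measure (E N)).toSphere univ = N * volume (ball (0 : E N) 1) := by
  rw [Measure.toSphere_apply_univ, finrank_euclideanSpace_fin]

theorem MP_pos {N : ℕ} (hN : 2 ≤ N) : (volume : Measure (E N)).toSphere univ ≠ 0 := by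
  rw [MP_total]
  refine mul_ne_zero ?_ (measure_ball_pos volume (0 : E N) one_pos).ne'
  exact_mod_cast (by omega : N ≠ 0)

theorem MP_top {N : ℕ} : (volume : Measure (E N)).toSphere univ ≠ ⊤ := measure_ne_top _ _

theorem MP_ar_pos {N : ℕ} (hN : 2 ≤ N) : 0 < ar N :=
  ENNReal.toReal_pos (MP_pos hN) MP_top

theorem MP_prob {N : ℕ} (hN : 2 ≤ N) : IsProbabilityMeasure (mS N) := by
  constructor
  unfold mS
  rw [Measure.smul_apply, smul_eq_mul]
  exact ENNReal.inv_mul_cancel (MP_pos hN) MP_top

/-- the integral over the ray, density form -/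
theorem MP_ray {N : ℕ} (h : ℝ → ℝ) :
    ∫ t : Ioi (0 : ℝ), h (t : ℝ) ∂(Measure.volumeIoiPow (N - 1)) =
      ∫ r in Ioi (0 : ℝ), r ^ (N - 1) * h r := by
  simp only [Measure.volumeIoiPow, ENNReal.ofReal]
  rw [integral_withDensity_eq_integral_smul,
    integral_subtype_comap measurableSet_Ioi fun a ↦ Real.toNNReal (a ^ (N - 1)) • h a,
    setIntegral_congr_fun measurableSet_Ioi fun x hx ↦ ?_]
  · show Real.toNNReal (x ^ (N - 1)) • h x = x ^ (N - 1) * h x
    rw [NNReal.smul_def, Real.coe_toNNReal _ (pow_nonneg hx.out.le _), smul_eq_mul]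
  · exact (measurable_subtype_coe.pow_const _).real_toNNReal

/-- integrability over the ray, density form -/
theorem MP_ray_int {N : ℕ} (h : ℝ → ℝ) :
    Integrable (fun t : Ioi (0 : ℝ) => h (t : ℝ)) (Measure.volumeIoiPow (N - 1)) ↔
      IntegrableOn (fun r => r ^ (N - 1) * h r) (Ioi 0) := by
  rw [integrableOn_iff_comap_subtypeVal (by measurability), Measure.volumeIoiPow,
    integrable_withDensity_iff_integrable_smul']
  · refine integrable_congr (.of_forall ?_)
    rintro ⟨x, hx : 0 < x⟩
    simp (disch := positivity) [ENNReal.toReal_ofReal]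
  · fun_prop
  · simp

theorem pf_MP : T_MP := by
  intro N hN
  refine ⟨MP_prob hN, MP_ar_pos hN, ?_, fun g hg => ?_⟩
  · unfold ar
    rw [MP_total, ENNReal.toReal_mul, ENNReal.toReal_natCast]
    rfl
  haveI : Nonempty (Fin N) := ⟨⟨0, by omega⟩⟩
  have hdim : Module.finrank ℝ (E N) = N := finrank_euclideanSpace_fin
  have hMP := (volume : Measure (E N)).measurePreserving_homeomorphUnitSphereProd
  rw [hdim] at hMP
  have h0 : MeasurableSet ({0}ᶜ : Set (E N)) := (measurableSet_singleton _).compl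
  have hinv : ∀ x : ({0}ᶜ : Set (E N)), (((homeomorphUnitSphereProd (E N) x).2 : Ioi (0 : ℝ)) : ℝ) •
      (((homeomorphUnitSphereProd (E N) x).1 : sphere (0 : E N) 1) : E N) = x := by
    intro x
    have h2 := homeomorphUnitSphereProd_symm_apply_coe (E N) (homeomorphUnitSphereProd (E N) x)
    rw [Homeomorph.symm_apply_apply] at h2
    exact h2.symm
  have hI : Integrable (fun p : Sp N × Ioi (0 : ℝ) => g ((p.2 : ℝ) • (p.1 : E N)))
      ((volume : Measure (E N)).toSphere.prod (Measure.volumeIoiPow (N - 1))) := by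
    rw [← hMP.integrable_comp_emb (Homeomorph.measurableEmbedding _)]
    have h1 : ((fun p : Sp N × Ioi (0 : ℝ) => g ((p.2 : ℝ) • (p.1 : E N))) ∘
        (homeomorphUnitSphereProd (E N))) = g ∘ (Subtype.val : ({0}ᶜ : Set (E N)) → E N) := by
      funext x
      show g _ = g _
      rw [hinv x]
    rw [h1, ← integrableOn_iff_comap_subtypeVal h0]
    exact hg.integrableOn
  have hE : ∫ x, g x = ∫ p : Sp N × Ioi (0 : ℝ), g ((p.2 : ℝ) • (p.1 : E N))
      ∂((volume : Measure (E N)).toSphere.prod (Measure.volumeIoiPow (N - 1))) := by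
    rw [← hMP.integral_comp (Homeomorph.measurableEmbedding _)]
    have h1 : ∀ x : ({0}ᶜ : Set (E N)), g ((((homeomorphUnitSphereProd (E N) x).2 : Ioi (0 : ℝ)) : ℝ) •
      (((homeomorphUnitSphereProd (E N) x).1 : sphere (0 : E N) 1) : E N)) = g x := by
      intro x
      rw [hinv x]
    rw [integral_congr_ae (ae_of_all _ h1), integral_subtype_comap h0 fun x => g x,
      restrict_compl_singleton]
  have hA : ∀ᵐ θ : Sp N ∂((volume : Measure (E N)).toSphere),
      IntegrableOn (fun r : ℝ => r ^ (N - 1) * g (r • (θ : E N))) (Ioi 0) := by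
    filter_upwards [hI.prod_right_ae] with θ hθ
    exact (MP_ray_int fun r => g (r • (θ : E N))).1 hθ
  have hB : Integrable (fun θ : Sp N => ∫ r in Ioi (0 : ℝ), r ^ (N - 1) * g (r • (θ : E N)))
      ((volume : Measure (E N)).toSphere) := by
    have h1 := hI.integral_prod_left
    refine h1.congr (ae_of_all _ fun θ => ?_)
    exact MP_ray fun r => g (r • (θ : E N))
  have hc : ((volume : Measure (E N)).toSphere univ)⁻¹ ≠ ⊤ := ENNReal.inv_ne_top.2 (MP_pos hN)
  refine ⟨?_, ?_, ?_⟩
  · unfold mS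
    exact Measure.ae_smul_measure hA _
  · unfold mS
    exact hB.smul_measure hc
  · rw [hE, integral_prod _ hI]
    unfold av mS
    rw [integral_smul_measure, ENNReal.toReal_inv, smul_eq_mul]
    have h2 : ar N ≠ 0 := (MP_ar_pos hN).ne'
    change _ = ar N * ((ar N)⁻¹ * _)
    rw [← mul_assoc, mul_inv_cancel₀ h2, one_mul]
    refine integral_congr_ae (ae_of_all _ fun θ => ?_)
    exact MP_ray fun r => g (r • (θ : E N))

end Pool.Agent.H37.LQ
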