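import Pool.Agent.H7.LP.Targets3

/-!
# Row RIQ of lpq_modules: points with equal structures are in one orbit
-/

set_option autoImplicit false

open Set Filter Topology

namespace Pool.Agent.H37.LQ

open Pool.Agent.H7.LP Pool.Agent.H7.LQ

private theorem riq_small {G : Type} [Group G] [TopologicalSpace G] (L : LPD G) (k : ℕ → ℕ)
    (g : ℕ → G) (h : ∀ m, ∃ s, m ≤ k s ∧ g s ∈ L.H (k s)) :
    ∀ U ∈ 𝓝 (1 : G), ∃ s, ∀ r ∈ L.R (k s), (g s)⁻¹ * r * g s ∈ U := by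
  intro U hU
  obtain ⟨m, hm⟩ := L.small U hU
  obtain ⟨s, hs, hg⟩ := h m
  refine ⟨s, fun r hr => hm _ ?_⟩
  have h1 := (L.piece (k s)).nor (g s)⁻¹ ((L.H (k s)).inv_mem hg) r hr
  rw [inv_inv] at h1
  exact (antitone_nat_of_succ_le L.antR) hs h1

/-- row RIQ -/
theorem pf_RIQ (h1 : Pool.Agent.H7.LP.T_EQV) (h2 : Pool.Agent.H7.LP.T_LSM) (h3 : T_LBT)
    (h4 : T_KKA) (h5 : T_CVG) (h6 : T_RSR) (h7 : T_SAM) : T_RIQ := by
  intro G X _ _ _ _ _ _ B L M _ Y S x x' e e' w he he' hw hw'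
  obtain ⟨i, hi1, hi2, hi3⟩ := h6 G X B L M Y S x x' e e' w he he' hw hw'
  obtain ⟨hS1, hS2⟩ := h7 G X B L M Y x x' e e' w hw hw'
  have hsm := riq_small L (fun s => (e (i s)).1) (fun s => (e (i s)).2.2) (fun m => by
    obtain ⟨s, hs1, hs2⟩ := hi2 m
    rw [hw.k] at hs1 hs2
    exact ⟨s, hs1, hs2⟩)
  have hsm' := riq_small L (fun s => (e (i s)).1) (fun s => (e' (i s)).2.2) (fun m => by
    obtain ⟨s, hs1, hs2⟩ := hi3 m
    rw [hw.k] at hs1 hs2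
    exact ⟨s, hs1, hs2⟩)
  have hL := fun s => h3 G X L M Y (e (i s)).1 x (e (i s)).2.2
  have hK := fun s => h4 G B (L.R (e (i s)).1) (L.H (e (i s)).1)
    (lb L Y (e (i s)).1 x (e (i s)).2.2) (L.piece _) (hL s).1 (hL s).2.1
  have hKS : ∀ s, KX B L Y (e (i s)).1 (e (i s)).2.1 x (e (i s)).2.2 ≤
      Stb (L.H (e (i s)).1) (lb L Y (e (i s)).1 x (e (i s)).2.2) := fun s => (hK s).2.1 _
  obtain ⟨a, ha⟩ := h5 G L (fun s => (e (i s)).1)
    (fun s => KX B L Y (e (i s)).1 (e (i s)).2.1 x (e (i s)).2.2)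
    (fun s => (e (i s)).2.2) (fun s => (e' (i s)).2.2)
    (fun s => (hK s).1 _) (fun s u hu => (mem_Stb.1 (hKS s hu)).1) (fun s => (hK s).2.2.2.1 _)
    (fun s => (he.node (i s)).2) (fun s => (hw.le _ _).1 (hi1 s))
    (fun s => hS2 _ _ (hi1 s)) hsm hsm'
  have key : tr a (Y.C x) = tr 1 (Y.C x') := by
    refine h2 G (fun s => L.R (e (i s)).1) (fun s => (e' (i s)).2.2) a 1 (Y.C x) (Y.C x')
      (Y.cl x) (Y.cl x') hsm' ?_
    intro s
    have hu := mem_Stb.1 (hKS s (ha s))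
    have e1 : (e' (i s)).2.2 * a =
        ((e' (i s)).2.2 * a * ((e (i s)).2.2)⁻¹) * (e (i s)).2.2 := by group
    have e2 := (hL s).2.2.1 _ hu.1
    rw [hu.2] at e2
    have e3 := (hS1 (i s)).2.2.1
    show lb L Y (e (i s)).1 x ((e' (i s)).2.2 * a) = lb L Y (e (i s)).1 x' ((e' (i s)).2.2 * 1)
    rw [mul_one, e1, e2, e3]
  rw [tr_one] at key
  obtain ⟨m, -, hm⟩ := h1 G X M Y a x x' key
  exact ⟨m, hm⟩

end Pool.Agent.H37.LQ
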