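import Pool.Agent.H7.LP.Targets3

/-!
# Row STX of lpq_modules: structures of codes exist
-/

set_option autoImplicit false

open Set Filter Topology

namespace Pool.Agent.H37.LQ

open Pool.Agent.H7.LP Pool.Agent.H7.LQ

open Classical in
/-- row STX -/
theorem pf_STX : T_STX := by
  intro G X _ _ _ _ B L M _ Y x e
  refine ⟨(fun i => ((e i).1, (e i).2.1, fun np =>
      decide ((lb L Y (e i).1 x (e i).2.2 np.1 ∩ B.U np.2).Nonempty)),
    fun i j => (decide (Le B L Y x (e i) (e j)), fun p => decide (Le B L Y x (e i) (e j) ∧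
      ∃ u ∈ KX B L Y (e j).1 (e j).2.1 x (e j).2.2, (e i).2.2 * ((e j).2.2)⁻¹ * u ∈ B.U p))),
    fun i => rfl, fun i => rfl, fun i n p => ?_, fun i j => ?_, fun i j p => ?_⟩
  · exact decide_eq_true_iff
  · exact decide_eq_true_iff
  · exact decide_eq_true_iff

end Pool.Agent.H37.LQ
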